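import Pool.Agent.Helper57.TX.Defs
import Pool.Agent.Helper84.EA.Mert

/-!
# TX, block A7: the derivative of the prime sum as a sum over primes
-/

set_option autoImplicit false
open MeasureTheory Set Filter Topology
open Pool.Agent.Helper57.Zeta Pool.Agent.Helper57.LH Pool.Agent.Helper57.ED
open Pool.Agent.Helper54.LG (za zb qk SS MM)
open Pool.Agent.Helper57.TX

namespace Pool.Agent.Helper25.TX

/-- Powers of a prime, from the square on. -/
theorem geo {x : ℝ} (hx : 0 ≤ x) (hx1 : x ≤ 3 / 4) (N : ℕ) : ∑ k ∈ Finset.Icc 2 N, x ^ k ≤ 4 * x ^ 2 := by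
  have h1 : ∀ n : ℕ, ∑ k ∈ Finset.range n, x ^ k ≤ 4 := by
    intro n
    have h := Summable.sum_le_tsum (Finset.range n) (fun k _ => pow_nonneg hx k)
      (summable_geometric_of_lt_one hx (by linarith))
    rw [tsum_geometric_of_lt_one hx (by linarith)] at h
    refine h.trans ?_
    rw [inv_le_comm₀ (by linarith) (by norm_num)]
    linarith
  have h2 : ∑ k ∈ Finset.Icc 2 N, x ^ k = ∑ k ∈ Finset.range (N - 1), x ^ (k + 2) := by
    rcases lt_or_ge N 2 with h | h
    · have : N - 1 = 0 := by omega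
      rw [this, Finset.Icc_eq_empty (by omega)]
      simp
    · refine Finset.sum_nbij' (fun k => k - 2) (fun k => k + 2) ?_ ?_ ?_ ?_ ?_
      · intro k hk
        rw [Finset.mem_Icc] at hk
        rw [Finset.mem_range]
        omega
      · intro k hk
        rw [Finset.mem_range] at hk
        rw [Finset.mem_Icc]
        omega
      · intro k hk
        rw [Finset.mem_Icc] at hk
        show k - 2 + 2 = k
        omega
      · intro k _
        show k + 2 - 2 = k
        omega
      · intro k hk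
        rw [Finset.mem_Icc] at hk
        show x ^ k = x ^ (k - 2 + 2)
        rw [Nat.sub_add_cancel hk.1]
  rw [h2]
  have h3 : ∑ k ∈ Finset.range (N - 1), x ^ (k + 2) = x ^ 2 * ∑ k ∈ Finset.range (N - 1), x ^ k := by
    rw [Finset.mul_sum]
    exact Finset.sum_congr rfl fun k _ => by ring
  rw [h3]
  nlinarith [h1 (N - 1), sq_nonneg x]

/-- Prime powers other than primes. -/
theorem np_le (N : ℕ) (hN : 1 ≤ N) :
    ∑ n ∈ (Finset.range (N + 1)).filter (fun n => ¬ n.Prime), ArithmeticFunction.vonMangoldt n / √n ≤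
      4 * (Real.log N + 6) := by
  classical
  set P := (Finset.range (N + 1)).filter Nat.Prime with hP
  have h1 : ∀ n ∈ (Finset.range (N + 1)).filter (fun n => ¬ n.Prime), ArithmeticFunction.vonMangoldt n / √n ≤
      ∑ p ∈ P, ∑ k ∈ Finset.Icc 2 N, (if p ^ k = n then Real.log p * (1 / √p) ^ k else 0) := by
    intro n hn
    rw [Finset.mem_filter, Finset.mem_range] at hn
    have hnn : ∀ p ∈ P, ∀ k ∈ Finset.Icc 2 N, (0:ℝ) ≤ (if p ^ k = n then Real.log p * (1 / √p) ^ k else 0) := by
      intro p hp k _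
      rw [hP, Finset.mem_filter] at hp
      have h2 : 0 ≤ Real.log p := Real.log_nonneg (by exact_mod_cast hp.2.one_lt.le)
      split_ifs <;> positivity
    by_cases hz : ArithmeticFunction.vonMangoldt n = 0
    · rw [hz, zero_div]
      exact Finset.sum_nonneg fun p hp => Finset.sum_nonneg fun k hk => hnn p hp k hk
    · have hpp : IsPrimePow n := ArithmeticFunction.vonMangoldt_ne_zero_iff.1 hz
      obtain ⟨p, k, hp, hk, hpk⟩ := (isPrimePow_nat_iff n).1 hpp
      have hk2 : 2 ≤ k := by
        rcases Nat.lt_or_ge k 2 with h | h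
        · have : k = 1 := by omega
          rw [this, pow_one] at hpk
          exact absurd (hpk ▸ hp) hn.2
        · exact h
      have hkN : k ≤ N := by
        have := Nat.lt_pow_self hp.one_lt (n := k)
        omega
      have hpN : p ≤ N := by
        have h3 : p ≤ p ^ k := Nat.le_self_pow (by omega) p
        omega
      have hpP : p ∈ P := by
        rw [hP, Finset.mem_filter, Finset.mem_range]
        exact ⟨by omega, hp⟩
      have hkI : k ∈ Finset.Icc 2 N := Finset.mem_Icc.2 ⟨hk2, hkN⟩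
      have h4 : ArithmeticFunction.vonMangoldt n / √n = (if p ^ k = n then Real.log p * (1 / √p) ^ k else 0) := by
        rw [if_pos hpk, ← hpk, ArithmeticFunction.vonMangoldt_apply_pow (by omega),
          ArithmeticFunction.vonMangoldt_apply_prime hp]
        push_cast
        have h5 : √((p:ℝ) ^ k) = √(p:ℝ) ^ k := by
          rw [Real.sqrt_eq_rpow, Real.sqrt_eq_rpow, ← Real.rpow_natCast, ← Real.rpow_natCast, ← Real.rpow_mul (by positivity),
            ← Real.rpow_mul (by positivity)]
          ring_nf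
        rw [h5, one_div, inv_pow, div_eq_mul_inv]
      rw [h4]
      calc (if p ^ k = n then Real.log p * (1 / √(p:ℝ)) ^ k else 0) ≤
          ∑ k ∈ Finset.Icc 2 N, (if p ^ k = n then Real.log p * (1 / √(p:ℝ)) ^ k else 0) :=
            Finset.single_le_sum (f := fun k => (if p ^ k = n then Real.log p * (1 / √(p:ℝ)) ^ k else 0))
              (fun k hk => hnn p hpP k hk) hkI
        _ ≤ _ := Finset.single_le_sum (f := fun p : ℕ => ∑ k ∈ Finset.Icc 2 N, (if p ^ k = n then Real.log p * (1 / √(p:ℝ)) ^ k else 0))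
              (fun p hp => Finset.sum_nonneg fun k hk => hnn p hp k hk) hpP
  refine (Finset.sum_le_sum h1).trans ?_
  rw [Finset.sum_comm]
  have h6 : ∀ p ∈ P, ∑ n ∈ (Finset.range (N + 1)).filter (fun n => ¬ n.Prime), ∑ k ∈ Finset.Icc 2 N,
      (if p ^ k = n then Real.log p * (1 / √(p:ℝ)) ^ k else 0) ≤ 4 * (ArithmeticFunction.vonMangoldt p / p) := by
    intro p hp
    rw [hP, Finset.mem_filter] at hp
    have hp0 : (0:ℝ) < p := by exact_mod_cast hp.2.pos
    have h2 : 0 ≤ Real.log p := Real.log_nonneg (by exact_mod_cast hp.2.one_lt.le)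
    rw [Finset.sum_comm]
    have h7 : ∀ k ∈ Finset.Icc 2 N, ∑ n ∈ (Finset.range (N + 1)).filter (fun n => ¬ n.Prime),
        (if p ^ k = n then Real.log p * (1 / √(p:ℝ)) ^ k else 0) ≤ Real.log p * (1 / √(p:ℝ)) ^ k := by
      intro k _
      rw [Finset.sum_ite_eq]
      split_ifs
      · exact le_rfl
      · positivity
    refine (Finset.sum_le_sum h7).trans ?_
    rw [← Finset.mul_sum, ArithmeticFunction.vonMangoldt_apply_prime hp.2]
    have h8 : 1 / √(p:ℝ) ≤ 3 / 4 := by
      rw [div_le_div_iff₀ (by positivity) (by norm_num)]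
      have h9 : (4 / 3 : ℝ) ≤ √(p:ℝ) := by
        apply Real.le_sqrt_of_sq_le
        have : (2:ℝ) ≤ p := by exact_mod_cast hp.2.two_le
        nlinarith
      linarith
    have h10 := geo (x := 1 / √(p:ℝ)) (by positivity) h8 N
    have h11 : (1 / √(p:ℝ)) ^ 2 = 1 / p := by
      rw [div_pow, Real.sq_sqrt hp0.le, one_pow]
    rw [h11] at h10
    calc Real.log p * ∑ k ∈ Finset.Icc 2 N, (1 / √(p:ℝ)) ^ k ≤ Real.log p * (4 * (1 / p)) :=
          mul_le_mul_of_nonneg_left h10 h2
      _ = _ := by ring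
  refine (Finset.sum_le_sum h6).trans ?_
  rw [← Finset.mul_sum]
  have h12 : ∑ p ∈ P, ArithmeticFunction.vonMangoldt p / (p:ℝ) ≤ Real.log N + (Real.log 4 + 4) := by
    refine le_trans ?_ (Pool.Agent.Helper84.EA.vM_upper hN)
    refine Finset.sum_le_sum_of_subset_of_nonneg (Finset.filter_subset _ _) fun d _ _ => ?_
    have := @ArithmeticFunction.vonMangoldt_nonneg d
    positivity
  have h13 : Real.log 4 ≤ 2 := by
    have : Real.log 4 = 2 * Real.log 2 := by
      rw [show (4:ℝ) = 2 ^ 2 by norm_num, Real.log_pow]; norm_num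
    have := Real.log_two_lt_d9
    linarith
  linarith

/-- The real part of a Dirichlet polynomial. -/
theorem DP_re (Q : Finset ℕ) (hQ : ∀ p ∈ Q, 0 < p) (r : ℕ → ℝ) (t : ℝ) :
    (DP Q r t).re = ∑ p ∈ Q, r p / √p * Real.cos (t * Real.log p) := by
  unfold DP
  rw [Complex.re_sum]
  refine Finset.sum_congr rfl fun p hp => ?_
  have hp0 : (0:ℝ) < p := by exact_mod_cast hQ p hp
  rw [Complex.re_ofReal_mul]
  have h1 : ((p:ℂ) ^ (-((1 / 2 : ℂ) + (t : ℂ) * Complex.I))) =
      ((1 / √(p:ℝ) : ℝ) : ℂ) * Complex.exp ((-(t * Real.log p) : ℝ) * Complex.I) := by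
    rw [Complex.cpow_def_of_ne_zero (by exact_mod_cast hp0.ne'), ← Complex.ofReal_natCast, ← Complex.ofReal_log hp0.le]
    have h2 : ((1 / √(p:ℝ) : ℝ) : ℂ) = Complex.exp ((-(1 / 2) * Real.log p : ℝ) : ℂ) := by
      rw [← Complex.ofReal_exp]
      congr 1
      rw [mul_comm, Real.exp_mul, Real.exp_log hp0, Real.rpow_neg hp0.le, Real.sqrt_eq_rpow, one_div]
    rw [h2, ← Complex.exp_add]
    congr 1
    push_cast
    ring
  rw [h1, Complex.re_ofReal_mul, Complex.exp_ofReal_mul_I_re, Real.cos_neg]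
  ring

/-- A7 -/
theorem ss_pt : ∃ C : ℝ, 0 < C ∧ ∀ X t : ℝ, 1 / 2 ≤ X → |SS X t| ≤ ‖DP (QX X) (rs X) t‖ + C := by
  refine ⟨104, by norm_num, fun X t hX => ?_⟩
  have hX0 : 0 < X := by linarith
  set N := ⌊Real.exp X⌋₊ with hNdef
  have hN1 : 1 ≤ N := by
    rw [hNdef, Nat.one_le_floor_iff]
    exact Real.one_le_exp hX0.le
  have hNX : Real.log N ≤ X := by
    have h1 : (N:ℝ) ≤ Real.exp X := Nat.floor_le (Real.exp_pos X).le
    rw [Real.log_le_iff_le_exp (by exact_mod_cast hN1)]
    exact h1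
  set f : ℕ → ℝ := fun n => ArithmeticFunction.vonMangoldt n / √n * (1 - Real.log n / X) ^ 2 * Real.cos (t * Real.log n) with hf
  have e1 : SS X t = 2 / X * ∑ n ∈ (Finset.range (N + 1)).filter Nat.Prime, f n +
      2 / X * ∑ n ∈ (Finset.range (N + 1)).filter (fun n => ¬ n.Prime), f n := by
    rw [← mul_add, Finset.sum_filter_add_sum_filter_not]
    rfl
  have e2 : 2 / X * ∑ n ∈ (Finset.range (N + 1)).filter Nat.Prime, f n = (DP (QX X) (rs X) t).re := by
    rw [DP_re _ (fun p hp => (Finset.mem_filter.1 hp).2.pos), Finset.mul_sum]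
    unfold QX
    refine Finset.sum_congr rfl fun p hp => ?_
    rw [Finset.mem_filter] at hp
    simp only [hf, rs]
    rw [ArithmeticFunction.vonMangoldt_apply_prime hp.2]
    ring
  have e3 : |∑ n ∈ (Finset.range (N + 1)).filter (fun n => ¬ n.Prime), f n| ≤ 4 * (Real.log N + 6) := by
    refine (Finset.abs_sum_le_sum_abs _ _).trans (le_trans (Finset.sum_le_sum fun n hn => ?_) (np_le N hN1))
    rw [Finset.mem_filter, Finset.mem_range] at hn
    have h0 : 0 ≤ ArithmeticFunction.vonMangoldt n := ArithmeticFunction.vonMangoldt_nonneg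
    rcases Nat.eq_zero_or_pos n with h | h
    · simp [hf, h]
    · have hn0 : (0:ℝ) < n := by exact_mod_cast h
      have h1 : 0 ≤ Real.log n := Real.log_nonneg (by exact_mod_cast h)
      have h2 : Real.log n ≤ X := by
        refine le_trans ?_ hNX
        exact Real.log_le_log hn0 (by exact_mod_cast Nat.lt_succ_iff.1 hn.1)
      have h3 : Real.log n / X ≤ 1 := (div_le_one hX0).2 h2
      have h4 : 0 ≤ Real.log n / X := by positivity
      have h5 : (1 - Real.log n / X) ^ 2 ≤ 1 := by nlinarith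
      simp only [hf]
      rw [abs_mul, abs_mul, abs_of_nonneg (by positivity : (0:ℝ) ≤ ArithmeticFunction.vonMangoldt n / √n),
        abs_of_nonneg (sq_nonneg _)]
      have h6 := Real.abs_cos_le_one (t * Real.log n)
      have h7 : (0:ℝ) ≤ ArithmeticFunction.vonMangoldt n / √n := by positivity
      calc ArithmeticFunction.vonMangoldt n / √n * (1 - Real.log n / X) ^ 2 * |Real.cos (t * Real.log n)| ≤
          ArithmeticFunction.vonMangoldt n / √n * 1 * 1 := by gcongr
        _ = _ := by ring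
  rw [e1, e2]
  refine (abs_add_le _ _).trans (add_le_add (Complex.abs_re_le_norm _) ?_)
  rw [abs_mul, abs_of_pos (by positivity : 0 < 2 / X)]
  calc 2 / X * |∑ n ∈ (Finset.range (N + 1)).filter (fun n => ¬ n.Prime), f n| ≤ 2 / X * (4 * (X + 6)) := by
        refine mul_le_mul_of_nonneg_left (e3.trans ?_) (by positivity)
        linarith
    _ ≤ 104 := by
        rw [div_mul_eq_mul_div, div_le_iff₀ hX0]
        linarith

end Pool.Agent.Helper25.TX
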