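import Pool.Agent.Helper25.TX.SsPt

/-!
# The derivative of the prime sum: primes, squares of primes, higher powers
-/

set_option autoImplicit false
open MeasureTheory Set Filter Topology
open Pool.Agent.Helper57.Zeta Pool.Agent.Helper57.LH Pool.Agent.Helper57.ED
open Pool.Agent.Helper54.LG (za zb qk SS MM)
open Pool.Agent.Helper57.TX

namespace Pool.Agent.Helper25.TX

/-- Coefficients of `SS X`, squares of primes. -/
noncomputable def rq (X : ℝ) (p : ℕ) : ℝ := 2 / X * (Real.log p / √p) * (1 - 2 * Real.log p / X) ^ 2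

/-- Powers of a prime, from the cube on. -/
theorem geo3 {x : ℝ} (hx : 0 ≤ x) (hx1 : x ≤ 3 / 4) (N : ℕ) : ∑ k ∈ Finset.Icc 3 N, x ^ k ≤ 4 * x ^ 3 := by
  rcases lt_or_ge N 3 with h | h
  · rw [Finset.Icc_eq_empty (by omega)]
    simp
    positivity
  · have h1 := geo hx hx1 (N - 1)
    have h2 : ∑ k ∈ Finset.Icc 3 N, x ^ k = x * ∑ k ∈ Finset.Icc 2 (N - 1), x ^ k := by
      rw [Finset.mul_sum]
      refine Finset.sum_nbij' (fun k => k - 1) (fun k => k + 1) ?_ ?_ ?_ ?_ ?_
      · intro k hk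
        rw [Finset.mem_Icc] at hk ⊢
        omega
      · intro k hk
        rw [Finset.mem_Icc] at hk ⊢
        omega
      · intro k hk
        rw [Finset.mem_Icc] at hk
        show k - 1 + 1 = k
        omega
      · intro k _
        show k + 1 - 1 = k
        omega
      · intro k hk
        rw [Finset.mem_Icc] at hk
        show x ^ k = x * x ^ (k - 1)
        rw [← pow_succ', Nat.sub_add_cancel (by omega)]
    rw [h2]
    calc x * ∑ k ∈ Finset.Icc 2 (N - 1), x ^ k ≤ x * (4 * x ^ 2) := mul_le_mul_of_nonneg_left h1 hx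
      _ = _ := by ring

/-- A sum over the primes. -/
theorem logp_sum : ∃ C : ℝ, 0 < C ∧ ∀ P : Finset ℕ, (∀ p ∈ P, p.Prime) →
    ∑ p ∈ P, Real.log p / ((p:ℝ) * √p) ≤ C := by
  have hs : Summable (fun n : ℕ => 4 / (n:ℝ) ^ (5 / 4 : ℝ)) := by
    have := (Real.summable_one_div_nat_rpow (p := 5 / 4)).2 (by norm_num)
    simpa [div_eq_mul_inv] using this.mul_left 4
  refine ⟨∑' n : ℕ, 4 / (n:ℝ) ^ (5 / 4 : ℝ) + 1, ?_, fun P hP => ?_⟩
  · have : 0 ≤ ∑' n : ℕ, 4 / (n:ℝ) ^ (5 / 4 : ℝ) := tsum_nonneg fun n => by positivity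
    linarith
  have h1 : ∀ p ∈ P, Real.log p / ((p:ℝ) * √p) ≤ 4 / (p:ℝ) ^ (5 / 4 : ℝ) := by
    intro p hp
    have hp0 : (0:ℝ) < p := by exact_mod_cast (hP p hp).pos
    have h2 : Real.log p ≤ 4 * (p:ℝ) ^ (1 / 4 : ℝ) := by
      have := Real.log_le_rpow_div hp0.le (by norm_num : (0:ℝ) < 1 / 4)
      linarith
    rw [div_le_div_iff₀ (by positivity) (by positivity)]
    have h3 : (p:ℝ) * √p = (p:ℝ) ^ (3 / 2 : ℝ) := by
      rw [Real.sqrt_eq_rpow, ← Real.rpow_one_add' hp0.le (by norm_num)]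
      norm_num
    rw [h3]
    calc Real.log p * (p:ℝ) ^ (5 / 4 : ℝ) ≤ 4 * (p:ℝ) ^ (1 / 4 : ℝ) * (p:ℝ) ^ (5 / 4 : ℝ) := by gcongr
      _ = 4 * (p:ℝ) ^ (3 / 2 : ℝ) := by
        rw [mul_assoc, ← Real.rpow_add hp0]
        norm_num
  refine (Finset.sum_le_sum h1).trans ?_
  have := hs.sum_le_tsum P (fun n _ => by positivity)
  linarith

open Classical in
/-- Prime powers from the cube on. -/
theorem np3_le : ∃ C : ℝ, 0 < C ∧ ∀ N : ℕ,
    ∑ n ∈ (Finset.range (N + 1)).filter (fun n => ¬ n.Prime ∧ ¬ ∃ p : ℕ, p.Prime ∧ n = p ^ 2),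
      ArithmeticFunction.vonMangoldt n / √n ≤ C := by
  obtain ⟨C, hC, hlog⟩ := logp_sum
  refine ⟨4 * C, by positivity, fun N => ?_⟩
  set P := (Finset.range (N + 1)).filter Nat.Prime with hP
  set S := (Finset.range (N + 1)).filter (fun n => ¬ n.Prime ∧ ¬ ∃ p : ℕ, p.Prime ∧ n = p ^ 2) with hS
  have h1 : ∀ n ∈ S, ArithmeticFunction.vonMangoldt n / √n ≤
      ∑ p ∈ P, ∑ k ∈ Finset.Icc 3 N, (if p ^ k = n then Real.log p * (1 / √p) ^ k else 0) := by
    intro n hn
    rw [hS, Finset.mem_filter, Finset.mem_range] at hn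
    have hnn : ∀ p ∈ P, ∀ k ∈ Finset.Icc 3 N, (0:ℝ) ≤ (if p ^ k = n then Real.log p * (1 / √p) ^ k else 0) := by
      intro p hp k _
      rw [hP, Finset.mem_filter] at hp
      have h2 : 0 ≤ Real.log p := Real.log_nonneg (by exact_mod_cast hp.2.one_lt.le)
      split_ifs <;> positivity
    by_cases hz : ArithmeticFunction.vonMangoldt n = 0
    · rw [hz, zero_div]
      exact Finset.sum_nonneg fun p hp => Finset.sum_nonneg fun k hk => hnn p hp k hk
    · have hpp : IsPrimePow n := ArithmeticFunction.vonMangoldt_ne_zero_iff.1 hz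
      obtain ⟨p, k, hp, hk, hpk⟩ := (isPrimePow_nat_iff n).1 hpp
      have hk2 : 3 ≤ k := by
        rcases Nat.lt_or_ge k 3 with h | h
        · exfalso
          have : k = 1 ∨ k = 2 := by omega
          rcases this with h1 | h1
          · rw [h1, pow_one] at hpk
            exact hn.2.1 (hpk ▸ hp)
          · rw [h1] at hpk
            exact hn.2.2 ⟨p, hp, hpk.symm⟩
        · exact h
      have hkN : k ≤ N := by
        have := Nat.lt_pow_self hp.one_lt (n := k)
        omega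
      have hpN : p ≤ N := by
        have h3 : p ≤ p ^ k := Nat.le_self_pow (by omega) p
        omega
      have hpP : p ∈ P := by
        rw [hP, Finset.mem_filter, Finset.mem_range]
        exact ⟨by omega, hp⟩
      have hkI : k ∈ Finset.Icc 3 N := Finset.mem_Icc.2 ⟨hk2, hkN⟩
      have h4 : ArithmeticFunction.vonMangoldt n / √n = (if p ^ k = n then Real.log p * (1 / √p) ^ k else 0) := by
        rw [if_pos hpk, ← hpk, ArithmeticFunction.vonMangoldt_apply_pow (by omega),
          ArithmeticFunction.vonMangoldt_apply_prime hp]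
        push_cast
        have h5 : √((p:ℝ) ^ k) = √(p:ℝ) ^ k := by
          rw [Real.sqrt_eq_rpow, Real.sqrt_eq_rpow, ← Real.rpow_natCast, ← Real.rpow_natCast, ← Real.rpow_mul (by positivity),
            ← Real.rpow_mul (by positivity)]
          ring_nf
        rw [h5, one_div, inv_pow, div_eq_mul_inv]
      rw [h4]
      calc (if p ^ k = n then Real.log p * (1 / √(p:ℝ)) ^ k else 0) ≤
          ∑ k ∈ Finset.Icc 3 N, (if p ^ k = n then Real.log p * (1 / √(p:ℝ)) ^ k else 0) :=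
            Finset.single_le_sum (f := fun k => (if p ^ k = n then Real.log p * (1 / √(p:ℝ)) ^ k else 0))
              (fun k hk => hnn p hpP k hk) hkI
        _ ≤ _ := Finset.single_le_sum (f := fun p : ℕ => ∑ k ∈ Finset.Icc 3 N, (if p ^ k = n then Real.log p * (1 / √(p:ℝ)) ^ k else 0))
              (fun p hp => Finset.sum_nonneg fun k hk => hnn p hp k hk) hpP
  refine (Finset.sum_le_sum h1).trans ?_
  rw [Finset.sum_comm]
  have h6 : ∀ p ∈ P, ∑ n ∈ S, ∑ k ∈ Finset.Icc 3 N,
      (if p ^ k = n then Real.log p * (1 / √(p:ℝ)) ^ k else 0) ≤ 4 * (Real.log p / ((p:ℝ) * √p)) := by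
    intro p hp
    rw [hP, Finset.mem_filter] at hp
    have hp0 : (0:ℝ) < p := by exact_mod_cast hp.2.pos
    have h2 : 0 ≤ Real.log p := Real.log_nonneg (by exact_mod_cast hp.2.one_lt.le)
    rw [Finset.sum_comm]
    have h7 : ∀ k ∈ Finset.Icc 3 N, ∑ n ∈ S,
        (if p ^ k = n then Real.log p * (1 / √(p:ℝ)) ^ k else 0) ≤ Real.log p * (1 / √(p:ℝ)) ^ k := by
      intro k _
      rw [Finset.sum_ite_eq]
      split_ifs
      · exact le_rfl
      · positivity
    refine (Finset.sum_le_sum h7).trans ?_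
    rw [← Finset.mul_sum]
    have h8 : 1 / √(p:ℝ) ≤ 3 / 4 := by
      rw [div_le_div_iff₀ (by positivity) (by norm_num)]
      have h9 : (4 / 3 : ℝ) ≤ √(p:ℝ) := by
        apply Real.le_sqrt_of_sq_le
        have : (2:ℝ) ≤ p := by exact_mod_cast hp.2.two_le
        nlinarith
      linarith
    have h10 := geo3 (x := 1 / √(p:ℝ)) (by positivity) h8 N
    have h11 : (1 / √(p:ℝ)) ^ 3 = 1 / (p * √p) := by
      rw [div_pow, one_pow, pow_succ, Real.sq_sqrt hp0.le]
    rw [h11] at h10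
    calc Real.log p * ∑ k ∈ Finset.Icc 3 N, (1 / √(p:ℝ)) ^ k ≤ Real.log p * (4 * (1 / (p * √p))) :=
          mul_le_mul_of_nonneg_left h10 h2
      _ = _ := by ring
  refine (Finset.sum_le_sum h6).trans ?_
  rw [← Finset.mul_sum]
  exact mul_le_mul_of_nonneg_left (hlog P fun p hp => (Finset.mem_filter.1 hp).2) (by norm_num)

/-- The derivative of the prime sum is a sum over primes plus a sum over squares of primes, up to `O(1/X)`. -/
theorem ss_split : ∃ C : ℝ, 0 < C ∧ ∀ X t : ℝ, 1 / 2 ≤ X →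
    |SS X t - (DP (QX X) (rs X) t).re - (DP (QX (X / 2)) (rq X) (2 * t)).re| ≤ C / X := by
  classical
  obtain ⟨C, hC, hnp⟩ := np3_le
  refine ⟨2 * C, by positivity, fun X t hX => ?_⟩
  have hX0 : 0 < X := by linarith
  set N := ⌊Real.exp X⌋₊ with hNdef
  have hN1 : 1 ≤ N := by
    rw [hNdef, Nat.one_le_floor_iff]
    exact Real.one_le_exp hX0.le
  have hNX : Real.log N ≤ X := by
    have h1 : (N:ℝ) ≤ Real.exp X := Nat.floor_le (Real.exp_pos X).le
    rw [Real.log_le_iff_le_exp (by exact_mod_cast hN1)]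
    exact h1
  set f : ℕ → ℝ := fun n => ArithmeticFunction.vonMangoldt n / √n * (1 - Real.log n / X) ^ 2 * Real.cos (t * Real.log n) with hf
  set A := (Finset.range (N + 1)).filter Nat.Prime with hA
  set B := (Finset.range (N + 1)).filter (fun n => ∃ p : ℕ, p.Prime ∧ n = p ^ 2) with hB
  set D := (Finset.range (N + 1)).filter (fun n => ¬ n.Prime ∧ ¬ ∃ p : ℕ, p.Prime ∧ n = p ^ 2) with hD
  have hAB : ∀ n : ℕ, n.Prime → ¬ ∃ p : ℕ, p.Prime ∧ n = p ^ 2 := by
    rintro n hn ⟨p, _, rfl⟩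
    exact (Nat.Prime.not_prime_pow (le_refl 2)) hn
  have e1 : SS X t = 2 / X * ∑ n ∈ A, f n + 2 / X * ∑ n ∈ B, f n + 2 / X * ∑ n ∈ D, f n := by
    have h1 : SS X t = 2 / X * ∑ n ∈ Finset.range (N + 1), f n := rfl
    rw [h1, ← Finset.sum_filter_add_sum_filter_not (Finset.range (N + 1)) Nat.Prime,
      ← Finset.sum_filter_add_sum_filter_not ((Finset.range (N + 1)).filter (fun n => ¬ n.Prime))
        (fun n => ∃ p : ℕ, p.Prime ∧ n = p ^ 2), Finset.filter_filter, Finset.filter_filter]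
    have h2 : (Finset.range (N + 1)).filter (fun n => ¬ n.Prime ∧ ∃ p : ℕ, p.Prime ∧ n = p ^ 2) = B := by
      rw [hB]
      refine Finset.filter_congr fun n _ => ?_
      exact ⟨fun h => h.2, fun h => ⟨fun hn => hAB n hn h, h⟩⟩
    rw [h2]
    ring
  have e2 : 2 / X * ∑ n ∈ A, f n = (DP (QX X) (rs X) t).re := by
    rw [DP_re _ (fun p hp => (Finset.mem_filter.1 hp).2.pos), Finset.mul_sum]
    unfold QX
    refine Finset.sum_congr rfl fun p hp => ?_
    rw [Finset.mem_filter] at hp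
    simp only [hf, rs]
    rw [ArithmeticFunction.vonMangoldt_apply_prime hp.2]
    ring
  have e3 : 2 / X * ∑ n ∈ B, f n = (DP (QX (X / 2)) (rq X) (2 * t)).re := by
    rw [DP_re _ (fun p hp => (Finset.mem_filter.1 hp).2.pos), Finset.mul_sum]
    symm
    refine Finset.sum_bij (fun p _ => p ^ 2) ?_ ?_ ?_ ?_
    · intro p hp
      unfold QX at hp
      rw [Finset.mem_filter, Finset.mem_range] at hp
      rw [hB, Finset.mem_filter, Finset.mem_range]
      refine ⟨?_, p, hp.2, rfl⟩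
      rw [Nat.lt_succ_iff, hNdef]
      refine Nat.le_floor ?_
      have hp0 : (0:ℝ) < p := by exact_mod_cast hp.2.pos
      have h1 : (p:ℝ) ≤ Real.exp (X / 2) := by
        have := Nat.lt_succ_iff.1 hp.1
        exact (Nat.le_floor_iff (Real.exp_pos _).le).1 this
      push_cast
      calc (p:ℝ) ^ 2 ≤ Real.exp (X / 2) ^ 2 := by gcongr
        _ = Real.exp X := by rw [← Real.exp_nat_mul]; congr 1; push_cast; ring
    · intro p _ q _ h
      exact Nat.pow_left_injective (by norm_num) h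
    · intro n hn
      rw [hB, Finset.mem_filter, Finset.mem_range] at hn
      obtain ⟨hn, p, hp, rfl⟩ := hn
      refine ⟨p, ?_, rfl⟩
      unfold QX
      rw [Finset.mem_filter, Finset.mem_range, Nat.lt_succ_iff]
      refine ⟨Nat.le_floor ?_, hp⟩
      have h1 : ((p ^ 2 : ℕ) : ℝ) ≤ Real.exp X := by
        have := Nat.lt_succ_iff.1 hn
        rw [hNdef] at this
        exact (Nat.le_floor_iff (Real.exp_pos _).le).1 this
      push_cast at h1
      have h2 : Real.exp X = Real.exp (X / 2) ^ 2 := by rw [← Real.exp_nat_mul]; congr 1; push_cast; ring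
      rw [h2] at h1
      exact le_of_sq_le_sq h1 (Real.exp_pos _).le
    · intro p hp
      unfold QX at hp
      rw [Finset.mem_filter, Finset.mem_range] at hp
      have hp0 : (0:ℝ) < p := by exact_mod_cast hp.2.pos
      simp only [hf, rq]
      rw [ArithmeticFunction.vonMangoldt_apply_pow (by norm_num), ArithmeticFunction.vonMangoldt_apply_prime hp.2]
      push_cast
      rw [Real.sqrt_sq hp0.le, Real.log_pow]
      push_cast
      have h3 : Real.log p / √(p:ℝ) / √(p:ℝ) = Real.log p / p := by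
        rw [div_div, Real.mul_self_sqrt hp0.le]
      rw [show t * (2 * Real.log (p:ℝ)) = 2 * t * Real.log p by ring, ← h3]
      ring
  rw [e1, e2, e3]
  have e4 : |∑ n ∈ D, f n| ≤ C := by
    refine (Finset.abs_sum_le_sum_abs _ _).trans (le_trans (Finset.sum_le_sum fun n hn => ?_) (hnp N))
    rw [hD, Finset.mem_filter, Finset.mem_range] at hn
    have h0 : 0 ≤ ArithmeticFunction.vonMangoldt n := ArithmeticFunction.vonMangoldt_nonneg
    rcases Nat.eq_zero_or_pos n with h | h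
    · simp [hf, h]
    · have hn0 : (0:ℝ) < n := by exact_mod_cast h
      have h1 : 0 ≤ Real.log n := Real.log_nonneg (by exact_mod_cast h)
      have h2 : Real.log n ≤ X := by
        refine le_trans ?_ hNX
        exact Real.log_le_log hn0 (by exact_mod_cast Nat.lt_succ_iff.1 hn.1)
      have h3 : Real.log n / X ≤ 1 := (div_le_one hX0).2 h2
      have h4 : 0 ≤ Real.log n / X := by positivity
      have h5 : (1 - Real.log n / X) ^ 2 ≤ 1 := by nlinarith
      simp only [hf]
      rw [abs_mul, abs_mul, abs_of_nonneg (by positivity : (0:ℝ) ≤ ArithmeticFunction.vonMangoldt n / √n),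
        abs_of_nonneg (sq_nonneg _)]
      have h6 := Real.abs_cos_le_one (t * Real.log n)
      have h7 : (0:ℝ) ≤ ArithmeticFunction.vonMangoldt n / √n := by positivity
      calc ArithmeticFunction.vonMangoldt n / √n * (1 - Real.log n / X) ^ 2 * |Real.cos (t * Real.log n)| ≤
          ArithmeticFunction.vonMangoldt n / √n * 1 * 1 := by gcongr
        _ = _ := by ring
  rw [show (DP (QX X) (rs X) t).re + (DP (QX (X / 2)) (rq X) (2 * t)).re + 2 / X * ∑ n ∈ D, f n -
    (DP (QX X) (rs X) t).re - (DP (QX (X / 2)) (rq X) (2 * t)).re = 2 / X * ∑ n ∈ D, f n by ring]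
  rw [abs_mul, abs_of_pos (by positivity : 0 < 2 / X), mul_div_assoc, mul_comm (2:ℝ) (C / X), div_mul_eq_mul_div,
    div_mul_eq_mul_div, mul_comm 2 |∑ n ∈ D, f n|]
  exact div_le_div_of_nonneg_right (by linarith) hX0.le

/-- The variance of the squares. -/
theorem var_rq : ∃ C : ℝ, 0 < C ∧ ∀ X : ℝ, 1 / 2 ≤ X → ∑ p ∈ QX (X / 2), rq X p ^ 2 / p ≤ C / X ^ 2 := by
  obtain ⟨C, hC, hlog⟩ := logp_sum
  refine ⟨16 * C, by positivity, fun X hX => ?_⟩
  have hX0 : 0 < X := by linarith
  have h1 : ∀ p ∈ QX (X / 2), rq X p ^ 2 / p ≤ 16 / X ^ 2 * (Real.log p / ((p:ℝ) * √p)) := by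
    intro p hp
    unfold QX at hp
    rw [Finset.mem_filter, Finset.mem_range] at hp
    have hp0 : (0:ℝ) < p := by exact_mod_cast hp.2.pos
    have hl : 0 ≤ Real.log p := Real.log_nonneg (by exact_mod_cast hp.2.one_lt.le)
    have h2 : (p:ℝ) ≤ Real.exp (X / 2) := by
      have := Nat.lt_succ_iff.1 hp.1
      exact (Nat.le_floor_iff (Real.exp_pos _).le).1 this
    have h3 : Real.log p ≤ X / 2 := (Real.log_le_iff_le_exp hp0).2 h2
    have h4 : 2 * Real.log p / X ≤ 1 := (div_le_one hX0).2 (by linarith)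
    have h5 : 0 ≤ 2 * Real.log p / X := by positivity
    have h6 : ((1 - 2 * Real.log p / X) ^ 2) ^ 2 ≤ 1 := by
      have : (1 - 2 * Real.log p / X) ^ 2 ≤ 1 := by nlinarith
      nlinarith [sq_nonneg (1 - 2 * Real.log p / X)]
    have h7 : Real.log p ≤ 4 * √(p:ℝ) := by
      have h8 := Real.log_le_rpow_div hp0.le (by norm_num : (0:ℝ) < 1 / 2)
      rw [← Real.sqrt_eq_rpow] at h8
      have : 0 ≤ √(p:ℝ) := Real.sqrt_nonneg _
      linarith
    have hs : 0 < √(p:ℝ) := Real.sqrt_pos.2 hp0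
    unfold rq
    have e : (2 / X * (Real.log p / √(p:ℝ)) * (1 - 2 * Real.log p / X) ^ 2) ^ 2 / p =
        4 / X ^ 2 * (Real.log p ^ 2 / (p * p)) * ((1 - 2 * Real.log p / X) ^ 2) ^ 2 := by
      rw [mul_pow, mul_pow, div_pow, div_pow, Real.sq_sqrt hp0.le]
      field_simp
      ring
    rw [e]
    have h9 : Real.log p ^ 2 / (p * p) ≤ 4 * (Real.log p / ((p:ℝ) * √p)) := by
      rw [← mul_div_assoc, div_le_div_iff₀ (by positivity) (by positivity)]
      have h10 : (p:ℝ) = √p * √p := (Real.mul_self_sqrt hp0.le).symm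
      calc Real.log p ^ 2 * (p * √(p:ℝ)) = Real.log p * (p * √(p:ℝ)) * Real.log p := by ring
        _ ≤ Real.log p * (p * √(p:ℝ)) * (4 * √(p:ℝ)) := by gcongr
        _ = 4 * Real.log p * (p * (√(p:ℝ) * √(p:ℝ))) := by ring
        _ = 4 * Real.log p * (p * p) := by rw [← h10]
    calc 4 / X ^ 2 * (Real.log p ^ 2 / (p * p)) * ((1 - 2 * Real.log p / X) ^ 2) ^ 2 ≤
        4 / X ^ 2 * (4 * (Real.log p / ((p:ℝ) * √p))) * 1 := by gcongr
      _ = _ := by ring
  refine (Finset.sum_le_sum h1).trans ?_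
  rw [← Finset.mul_sum]
  have h2 := hlog (QX (X / 2)) (fun p hp => (Finset.mem_filter.1 hp).2)
  calc 16 / X ^ 2 * ∑ p ∈ QX (X / 2), Real.log p / ((p:ℝ) * √p) ≤ 16 / X ^ 2 * C := by gcongr
    _ = _ := by ring

end Pool.Agent.Helper25.TX
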